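import Pool.Agent.ACR.Targets
import Pool.Agent.ACQ.P_AS2

set_option autoImplicit false

/-!
# ACR: asymptotics 2 (target `T_AS2`)
-/

open Finset

namespace Pool.Agent.ACR

open Pool.Agent.ACQ

namespace AS2_

theorem two_pow (N m : ℕ) (hm : (m : ℝ) ≤ Real.log N / 100) :
    (2 : ℝ) ^ m ≤ Real.exp (Real.log N / 400) ^ 4 := by
  have h4 : (2 : ℝ) ≤ Real.exp 1 := by
    have := Real.add_one_le_exp (1 : ℝ)
    linarith
  calc (2 : ℝ) ^ m ≤ Real.exp 1 ^ m := pow_le_pow_left₀ (by norm_num) h4 _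
    _ = Real.exp ((m : ℝ) * 1) := by rw [Real.exp_nat_mul]
    _ ≤ Real.exp (Real.log N / 100) := by
        apply Real.exp_le_exp.mpr
        linarith
    _ = Real.exp (Real.log N / 400) ^ 4 := by
        rw [← Real.exp_nat_mul]
        congr 1
        push_cast
        ring

end AS2_

open AS2_ in
theorem p_AS2 : T_AS2 := by
  intro c
  obtain ⟨N₀, hN₀⟩ := exists_nat_ge (Real.exp (10000000 * (|c| + 1)))
  refine ⟨N₀, fun N hN m hm => ?_⟩
  have hNr : Real.exp (10000000 * (|c| + 1)) ≤ (N : ℝ) := hN₀.trans (by exact_mod_cast hN)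
  have hNpos : (0 : ℝ) < N := lt_of_lt_of_le (Real.exp_pos _) hNr
  have hNpos' : 0 < N := by exact_mod_cast hNpos
  have hL : 10000000 * (|c| + 1) ≤ Real.log N := (Real.le_log_iff_exp_le hNpos).mpr hNr
  have hCn : 0 ≤ |c| := abs_nonneg _
  have hL1 : 40000 ≤ Real.log N := by linarith
  have hLpos : 0 < Real.log N := by linarith
  have hm2 := two_pow N m hm
  have h4 := AS2_four N hL1
  have hll0 : 0 ≤ Real.log (Real.log N) := Real.log_nonneg (by linarith)
  have hll1 : Real.log (Real.log N) ≤ Real.log N := by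
    have := Real.log_le_sub_one_of_pos hLpos
    linarith
  set L : ℝ := Real.log N with hLdef
  set u : ℝ := Real.exp (L / 400) with hu
  have huL : L / 400 ≤ u := by
    have := Real.add_one_le_exp (L / 400)
    linarith
  have hu1 : 25000 * (|c| + 1) ≤ u := by linarith
  have hu2 : 2 ≤ u := by linarith
  have hu4 : L ^ 2 / 20000 ≤ u ^ 4 := by
    have h := Real.quadratic_le_exp_of_nonneg (show (0 : ℝ) ≤ L / 100 by positivity)
    have h' : u ^ 4 = Real.exp (L / 100) := by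
      rw [hu, ← Real.exp_nat_mul]
      congr 1
      push_cast
      ring
    rw [h']
    nlinarith
  have hX : (XN N : ℝ) ≤ u ^ 25 := by
    have h := Nat.floor_le (show 0 ≤ (N : ℝ) ^ ((1 : ℝ) / 16) by positivity)
    rw [AS2_rpow N hNpos' ((1 : ℝ) / 16) 25 (by norm_num)] at h
    unfold XN
    rw [AS2_rpow N hNpos' ((1 : ℝ) / 16) 25 (by norm_num)]
    exact h
  have hX0 : (0 : ℝ) ≤ (XN N : ℝ) := Nat.cast_nonneg _
  have hu25 : 1 ≤ u ^ 25 := one_le_pow₀ (by linarith)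
  have hu0 : 0 ≤ u := by linarith
  rw [AS2_rpow N hNpos' ((1 : ℝ) / 8) 50 (by norm_num),
    AS2_rpow N hNpos' ((3 : ℝ) / 16) 75 (by norm_num),
    AS2_rpow N hNpos' ((1 : ℝ) / 2) 200 (by norm_num), ← hLdef, ← hu]
  -- first factor
  have hF : (c * (L * Real.log L) + 1) * ((XN N : ℝ) + 1) + (u ^ 200 + 5) ≤ u ^ 202 := by
    have e0 : c * (L * Real.log L) ≤ |c| * L ^ 2 := by
      have h1 : c * (L * Real.log L) ≤ |c| * (L * Real.log L) :=
        mul_le_mul_of_nonneg_right (le_abs_self c) (by positivity)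
      have h2 : L * Real.log L ≤ L * L := mul_le_mul_of_nonneg_left hll1 hLpos.le
      have h3 : |c| * (L * Real.log L) ≤ |c| * (L * L) := mul_le_mul_of_nonneg_left h2 hCn
      nlinarith
    have e1 : c * (L * Real.log L) + 1 ≤ u ^ 5 := by
      have h1 : |c| * L ^ 2 + 1 ≤ (|c| + 1) * L ^ 2 := by nlinarith
      have h2 : (|c| + 1) * L ^ 2 ≤ (|c| + 1) * (20000 * u ^ 4) :=
        mul_le_mul_of_nonneg_left (by linarith) (by linarith)
      have h3 : (|c| + 1) * (20000 * u ^ 4) ≤ u * u ^ 4 := by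
        have : (|c| + 1) * 20000 ≤ u := by linarith
        calc (|c| + 1) * (20000 * u ^ 4) = ((|c| + 1) * 20000) * u ^ 4 := by ring
          _ ≤ u * u ^ 4 := mul_le_mul_of_nonneg_right this (by positivity)
      have h4 : u * u ^ 4 = u ^ 5 := by ring
      linarith
    have e2 : (c * (L * Real.log L) + 1) * ((XN N : ℝ) + 1) ≤ u ^ 5 * (2 * u ^ 25) := by
      calc (c * (L * Real.log L) + 1) * ((XN N : ℝ) + 1) ≤ u ^ 5 * ((XN N : ℝ) + 1) :=
            mul_le_mul_of_nonneg_right e1 (by linarith)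
        _ ≤ u ^ 5 * (2 * u ^ 25) := mul_le_mul_of_nonneg_left (by linarith) (by positivity)
    have e3 : u ^ 5 * (2 * u ^ 25) ≤ u ^ 200 := by
      have h1 : u ^ 200 = u ^ 30 * u ^ 170 := by ring
      have h2 : (2 : ℝ) ≤ u ^ 170 := by
        calc (2 : ℝ) ≤ u := hu2
          _ = u ^ 1 := (pow_one u).symm
          _ ≤ u ^ 170 := pow_le_pow_right₀ (by linarith) (by norm_num)
      have h3 : 0 ≤ u ^ 30 := by positivity
      calc u ^ 5 * (2 * u ^ 25) = u ^ 30 * 2 := by ring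
        _ ≤ u ^ 30 * u ^ 170 := mul_le_mul_of_nonneg_left h2 h3
        _ = u ^ 200 := h1.symm
    have e4 : (5 : ℝ) ≤ u ^ 200 := by
      calc (5 : ℝ) ≤ 2 ^ 3 := by norm_num
        _ ≤ u ^ 3 := pow_le_pow_left₀ (by norm_num) hu2 3
        _ ≤ u ^ 200 := pow_le_pow_right₀ (by linarith) (by norm_num)
    have e5 : 4 * u ^ 200 ≤ u ^ 202 := by
      have h1 : (4 : ℝ) ≤ u ^ 2 := by nlinarith
      have h2 : 0 ≤ u ^ 200 := by positivity
      calc 4 * u ^ 200 ≤ u ^ 2 * u ^ 200 := mul_le_mul_of_nonneg_right h1 h2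
        _ = u ^ 202 := by ring
    have e6 : 0 ≤ u ^ 200 := by positivity
    linarith
  have h2m : (0 : ℝ) ≤ 2 ^ m := by positivity
  have hA : (u ^ 50 * 2 ^ m) ^ 2 ≤ (u ^ 50 * u ^ 4) ^ 2 := by
    apply pow_le_pow_left₀ (by positivity)
    exact mul_le_mul_of_nonneg_left hm2 (by positivity)
  have hB : (u ^ 75 * 2 ^ m) ^ 2 ≤ (u ^ 75 * u ^ 4) ^ 2 := by
    apply pow_le_pow_left₀ (by positivity)
    exact mul_le_mul_of_nonneg_left hm2 (by positivity)
  have h4m : 4 * (m : ℝ) ≤ u ^ 4 := by nlinarith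
  have hl1 : ((c * (L * Real.log L) + 1) * ((XN N : ℝ) + 1) + (u ^ 200 + 5)) *
      (u ^ 50 * 2 ^ m) ^ 2 ≤ u ^ 202 * (u ^ 50 * u ^ 4) ^ 2 :=
    (mul_le_mul_of_nonneg_right hF (by positivity)).trans
      (mul_le_mul_of_nonneg_left hA (by positivity))
  have hl2 : 4 * (m : ℝ) * (u ^ 75 * 2 ^ m) ^ 2 ≤ u ^ 4 * (u ^ 75 * u ^ 4) ^ 2 :=
    mul_le_mul h4m hB (by positivity) (by positivity)
  have hr : u ^ 396 / 16 ≤ (N : ℝ) / (4 ^ yN N : ℕ) / 16 := by
    apply div_le_div_of_nonneg_right _ (by norm_num)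
    have h4pos : (0 : ℝ) < ((4 ^ yN N : ℕ) : ℝ) := by positivity
    rw [le_div_iff₀ h4pos, AS2_self N hNpos', ← hLdef, ← hu]
    calc u ^ 396 * ((4 ^ yN N : ℕ) : ℝ) ≤ u ^ 396 * u ^ 4 :=
          mul_le_mul_of_nonneg_left h4 (by positivity)
      _ = u ^ 400 := by ring
  have hfin : u ^ 202 * (u ^ 50 * u ^ 4) ^ 2 + u ^ 4 * (u ^ 75 * u ^ 4) ^ 2 < u ^ 396 / 16 := by
    have e1 : u ^ 162 ≤ u ^ 310 := pow_le_pow_right₀ (by linarith) (by norm_num)
    have e2 : u ^ 396 = u ^ 310 * u ^ 86 := by ring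
    have e3 : (64 : ℝ) ≤ u ^ 86 := by
      calc (64 : ℝ) = 2 ^ 6 := by norm_num
        _ ≤ u ^ 6 := pow_le_pow_left₀ (by norm_num) hu2 6
        _ ≤ u ^ 86 := pow_le_pow_right₀ (by linarith) (by norm_num)
    have e4 : 0 < u ^ 310 := by positivity
    have e5 : u ^ 202 * (u ^ 50 * u ^ 4) ^ 2 = u ^ 310 := by ring
    have e6 : u ^ 4 * (u ^ 75 * u ^ 4) ^ 2 = u ^ 162 := by ring
    rw [e5, e6, e2]
    nlinarith
  linarith

end Pool.Agent.ACR
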