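import Pool.Agent.ACR.Targets

/-! EXC: the exceptional elements -/

set_option autoImplicit false

open Finset

namespace Pool.Agent.ACR

open Pool.Agent.ACQ

theorem p_EXC : Pool.Agent.ACR.T_EXC := by
  intro A G X h
  classical
  rw [← Finset.card_filter_add_card_filter_not (s := G)
    (fun n => ∀ a ∈ A, ∀ r : ℕ, r.Prime → n ≠ r + a)]
  refine Nat.add_le_add_left ?_ _
  have h1 : G.filter (fun n => ¬ ∀ a ∈ A, ∀ r : ℕ, r.Prime → n ≠ r + a) ⊆
      (A ×ˢ Finset.range (X + 1)).image (fun x => x.2 + x.1) := by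
    intro n hn
    rw [Finset.mem_filter] at hn
    obtain ⟨hG, hn⟩ := hn
    push Not at hn
    obtain ⟨a, ha, r, hr, rfl⟩ := hn
    obtain ⟨q, hq, hqX, hm⟩ := h _ hG a ha
    rw [Finset.mem_image]
    refine ⟨(a, r), ?_, rfl⟩
    rw [Finset.mem_product]
    refine ⟨ha, ?_⟩
    have h2 : q ∣ r := by
      have h3 : r + a ≡ 0 + a [MOD q] := by rw [zero_add]; exact hm
      exact (Nat.modEq_zero_iff_dvd).1 (Nat.ModEq.add_right_cancel' a h3)
    have h4 : q = r := (Nat.prime_dvd_prime_iff_eq hq hr).1 h2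
    rw [Finset.mem_range, ← h4]
    exact Nat.lt_succ_of_le hqX
  calc _ ≤ _ := Finset.card_le_card h1
    _ ≤ _ := Finset.card_image_le
    _ = A.card * (X + 1) := by rw [Finset.card_product, Finset.card_range]

end Pool.Agent.ACR
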