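import Pool.Agent.ACR.Targets

set_option autoImplicit false

/-!
# ACR: target FIN
-/

open Finset

namespace Pool.Agent.ACR

open Pool.Agent.ACQ

namespace FIN_

lemma V_nonneg (y : ℕ) : 0 ≤ ACP.V y := by
  unfold ACP.V
  apply prod_nonneg
  intro p hp
  unfold ACP.pr at hp
  rw [mem_filter] at hp
  have h2 : (2 : ℝ) ≤ p := by exact_mod_cast hp.2.two_le
  have h3 : 1 / (p : ℝ) ≤ 1 := by
    rw [div_le_one (by linarith)]
    linarith
  linarith

/-- `A ∩ [0, N]` as a finset. -/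
noncomputable def cut (A : Set ℕ) (N : ℕ) : Finset ℕ :=
  open Classical in (Icc 0 N).filter fun a => a ∈ A

lemma mem_cut (A : Set ℕ) (N a : ℕ) : a ∈ cut A N ↔ a ≤ N ∧ a ∈ A := by
  classical
  simp [cut]

lemma card_cut (A : Set ℕ) (N : ℕ) : (cut A N).card ≤ ACP.cnt A N + 1 := by
  classical
  have h3 : ACP.cnt A N = ((Icc 1 N).filter fun a => a ∈ A).card := by
    unfold ACP.cnt
    rw [← Set.ncard_coe_finset]
    congr 1
    ext a
    simp only [coe_filter, mem_Icc, Set.mem_ofPred_eq]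
    tauto
  rw [h3]
  calc (cut A N).card
      ≤ (insert 0 ((Icc 1 N).filter fun a => a ∈ A)).card := by
        apply card_le_card
        intro a ha
        rw [mem_cut] at ha
        rw [mem_insert, mem_filter, mem_Icc]
        rcases Nat.eq_zero_or_pos a with h0 | h0
        · exact Or.inl h0
        · exact Or.inr ⟨⟨h0, ha.1⟩, ha.2⟩
    _ ≤ _ := card_insert_le _ _

lemma mis_ge (A : Set ℕ) (N : ℕ) (G : Finset ℕ) (hG : ∀ n ∈ G, 1 ≤ n ∧ n ≤ N)
    (h : ∀ n ∈ G, ∀ a ∈ cut A N, ∀ r : ℕ, r.Prime → n ≠ r + a) : G.card ≤ ACP.mis A N := by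
  classical
  unfold ACP.mis
  rw [← Set.ncard_coe_finset]
  apply Set.ncard_le_ncard
  · intro n hn
    have hn' := hG n (by exact_mod_cast hn)
    refine ⟨hn'.1, hn'.2, ?_⟩
    intro r a hr ha hnra
    have ha' : a ∈ cut A N := by
      rw [mem_cut]
      exact ⟨by omega, ha⟩
    exact h n (by exact_mod_cast hn) a ha' r hr hnra
  · apply Set.Finite.subset (Set.finite_Icc 1 N)
    intro n hn
    exact ⟨hn.1, hn.2.1⟩

end FIN_

theorem p_FIN (h_MAIN : ACQ.T_MAIN) (h_WTS : T_WTS) (h_GRE : ACQ.T_GRE) (h_BAD : ACQ.T_BAD)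
    (h_SZ : T_SZ) (h_AS1 : T_AS1) (h_AS2 : T_AS2) (h_EXC : T_EXC) (h_SMALL : ACQ.T_SMALL) :
    T_FIN := by
  classical
  obtain ⟨c, C', a, hc, hcC', ha, N2, hW⟩ := h_WTS
  obtain ⟨c₃, hc₃, hc₃1, hc₃2⟩ : ∃ c₃ : ℝ, 0 < c₃ ∧ c₃ ≤ 1 / 100 ∧ 640 * c₃ ≤ c * a :=
    ⟨min (1 / 100) (c * a / 640), lt_min (by norm_num) (by positivity), min_le_left _ _, by
      have := min_le_right (1 / 100 : ℝ) (c * a / 640)
      linarith⟩
  obtain ⟨C, hC, N1, hN1⟩ := h_SZ c₃ hc₃
  obtain ⟨N3, hN3⟩ := h_AS1 c C' (max (2 / a) (51200 * c₃ / (c * a ^ 2))) hc hcC'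
  obtain ⟨N4, hN4⟩ := h_AS2 C
  refine ⟨C, hC, max (max N1 N2) (max N3 N4), ?_⟩
  intro N hN A₀ hA₀
  have hN1' : N1 ≤ N := le_trans (le_max_left _ _) (le_trans (le_max_left _ _) hN)
  have hN2'' : N2 ≤ N := le_trans (le_max_right _ _) (le_trans (le_max_left _ _) hN)
  have hN3' : N3 ≤ N := le_trans (le_max_left _ _) (le_trans (le_max_right _ _) hN)
  have hN4' : N4 ≤ N := le_trans (le_max_right _ _) (le_trans (le_max_right _ _) hN)
  obtain ⟨A, hAdef⟩ : ∃ A : Finset ℕ, A = FIN_.cut A₀ N := ⟨_, rfl⟩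
  have hA : ∀ a ∈ A, a ≤ N := by
    intro a ha
    rw [hAdef, FIN_.mem_cut] at ha
    exact ha.1
  have hAc : (A.card : ℝ) ≤ C * (Real.log N * Real.log (Real.log N)) + 1 := by
    have h1 : (A.card : ℝ) ≤ (ACP.cnt A₀ N : ℝ) + 1 := by
      rw [hAdef]
      exact_mod_cast FIN_.card_cut A₀ N
    linarith
  have hn1 := hN1 N hN1'
  obtain ⟨I, hI1, hIa, hIl, hN2⟩ := hW N hN2''
  obtain ⟨hN2', hll, hb, hz2, hyz, hzX, hX1, hXN, hXr, hlz, hlz0, hlX, he4, h4L, hm⟩ :=
    hN3 N hN3'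
  obtain ⟨W, w, S, hSA, hW1, hW4, hWc, hSc, hSq⟩ := h_GRE A (yN N)
  have hlogN : 0 < Real.log N := Real.log_pos (by exact_mod_cast hN2')
  have hll0 : 0 < Real.log (Real.log N) := by linarith
  have hb1 : 2 ≤ a * Real.log (Real.log N) := by
    have h1 := (le_max_left _ _).trans hb
    rw [div_le_iff₀ ha] at h1
    linarith
  have hb2 : 51200 * c₃ ≤ c * a ^ 2 * Real.log (Real.log N) := by
    have h1 := (le_max_right _ _).trans hb
    rw [div_le_iff₀ (by positivity)] at h1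
    linarith
  have hmS : (S.card : ℝ) ≤ c₃ * Real.log N :=
    hSc.trans ((mul_le_mul_of_nonneg_right hAc (FIN_.V_nonneg _)).trans hn1)
  have hmS1 : (S.card : ℝ) ≤ Real.log N := by nlinarith
  have hmS2 : (S.card : ℝ) ≤ Real.log N / 100 := by nlinarith
  obtain ⟨hm1, hm2⟩ := hm S.card (Nat.cast_nonneg _) hmS1
  obtain ⟨B, hBc, hB⟩ := h_BAD S N (zN N) (XN N) (fun a ha => hA a (hSA ha)) hz2 hN2'
  have h2B : 2 * B.card ≤ zN N := by
    have : ((2 * B.card : ℕ) : ℝ) ≤ zN N := by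
      push_cast
      linarith
    exact_mod_cast this
  set P : Finset ℕ := (Icc 1 (XN N)).filter fun q => q.Prime ∧ zN N < q ∧ q ∉ B with hP
  have hPmem : ∀ q : ℕ, q ∈ P ↔ (q.Prime ∧ zN N < q ∧ q ≤ XN N ∧ q ∉ B) := by
    intro q
    rw [hP, mem_filter, mem_Icc]
    constructor
    · rintro ⟨⟨h1, h2⟩, h3, h4, h5⟩
      exact ⟨h3, h4, h2, h5⟩
    · rintro ⟨h3, h4, h2, h5⟩
      exact ⟨⟨h3.one_lt.le, h2⟩, h3, h4, h5⟩
  have hGood : Good (fun q : {q // q ∈ P} => (q : ℕ)) (fun a : {a // a ∈ S} => (a : ℕ)) W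
      (zN N) := by
    refine ⟨?_, ?_, ?_, hz2, hW1, ?_, ?_⟩
    · rintro ⟨q, hq⟩
      exact ((hPmem q).1 hq).1
    · exact Subtype.val_injective
    · rintro ⟨q, hq⟩
      exact ((hPmem q).1 hq).2.1
    · rintro ⟨q, hq⟩
      exact hWc q ((hPmem q).1 hq).1 (lt_of_le_of_lt hyz ((hPmem q).1 hq).2.1)
    · rintro ⟨q, hq⟩ ⟨b, hb⟩ ⟨b', hb'⟩ hbb
      have h1 := (hPmem q).1 hq
      exact hB q h1.1 h1.2.1 h1.2.2.1 h1.2.2.2 b hb b' hb' (fun h => hbb (Subtype.ext h))
  have hRng : Rng (fun q : {q // q ∈ P} => (q : ℕ)) (zN N) (XN N) B := by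
    refine ⟨Subtype.val_injective, ?_⟩
    intro q
    rw [← hPmem]
    constructor
    · rintro ⟨⟨q', hq'⟩, h⟩
      rw [← h]
      exact hq'
    · intro h
      exact ⟨⟨q, h⟩, rfl⟩
  obtain ⟨⟨y, hy⟩, hSS⟩ := hN2 {q // q ∈ P} (fun q => (q : ℕ)) B hRng h2B
  have hcard : Fintype.card {a // a ∈ S} = S.card := Fintype.card_coe S
  have hI2' : (2 : ℝ) ≤ I := hb1.trans hIa
  have hI0 : (0 : ℝ) < I := by linarith
  -- the two inequalities on the size of `S`
  have hA1 : (S.card : ℝ) * (2 * Real.log (zN N) / (c * I * Real.log N)) ≤ 1 / 32 := by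
    have h1 : (0 : ℝ) ≤ 2 * Real.log (zN N) / (c * I * Real.log N) := by positivity
    calc (S.card : ℝ) * (2 * Real.log (zN N) / (c * I * Real.log N))
        ≤ (c₃ * Real.log N) *
          (2 * (10 * Real.log (Real.log N)) / (c * (a * Real.log (Real.log N)) * Real.log N)) := by
          apply mul_le_mul hmS _ h1 (by positivity)
          apply div_le_div₀ (by positivity) (by linarith) (by positivity)
          apply mul_le_mul_of_nonneg_right _ hlogN.le
          exact mul_le_mul_of_nonneg_left hIa hc.le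
      _ = 20 * c₃ / (c * a) := by
          field_simp
          ring
      _ ≤ 1 / 32 := by
          rw [div_le_div_iff₀ (by positivity) (by norm_num)]
          linarith
  have hA2 : 20 * (S.card : ℝ) * (2 / (I : ℝ)) ^ 2 ≤
      c * Real.log N / (640 * Real.log (Real.log N)) := by
    have h0 : (2 / (I : ℝ)) ^ 2 ≤ (2 / (a * Real.log (Real.log N))) ^ 2 := by
      apply pow_le_pow_left₀ (by positivity)
      exact div_le_div_of_nonneg_left (by norm_num) (by positivity) hIa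
    have h1 : 20 * (S.card : ℝ) * (2 / (I : ℝ)) ^ 2 ≤
        20 * (c₃ * Real.log N) * (2 / (a * Real.log (Real.log N))) ^ 2 := by
      apply mul_le_mul (by linarith) h0 (by positivity) (by positivity)
    refine h1.trans ?_
    have h2 : 20 * (c₃ * Real.log N) * (2 / (a * Real.log (Real.log N))) ^ 2 =
        (80 * c₃ * Real.log N) / (a ^ 2 * Real.log (Real.log N) ^ 2) := by
      field_simp
      ring
    rw [h2, div_le_div_iff₀ (by positivity) (by positivity)]
    have h3 := mul_le_mul_of_nonneg_right hb2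
      (mul_nonneg hlogN.le hll0.le)
    nlinarith
  have hs0 : 0 < c * Real.log N / (640 * Real.log (Real.log N)) := by positivity
  have hSS' : ∀ E : Finset {q // q ∈ P}, pd (fun q : {q // q ∈ P} => (q : ℕ)) E ≤ N →
      c * Real.log N / (640 * Real.log (Real.log N)) ≤
        SS (fun q : {q // q ∈ P} => (q : ℕ)) (XN N) E := by
    intro E hE
    have h1 := (h_SMALL {q // q ∈ P} (fun q => (q : ℕ)) (zN N) N S.card E hGood.big hz2 hN2' hm1
      hE).2.2
    have h2 : 2 * E.card ≤ zN N := by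
      have : ((2 * E.card : ℕ) : ℝ) ≤ zN N := by
        push_cast
        linarith
      exact_mod_cast this
    refine le_trans ?_ (hSS E h2)
    have h3 : c * Real.log N / (640 * Real.log (Real.log N)) =
        c * (Real.log N / 32) / (2 * (10 * Real.log (Real.log N))) := by
      field_simp
      norm_num
    rw [h3]
    apply div_le_div₀ _ _ (by positivity) _
    · exact mul_nonneg hc.le (by linarith)
    · exact mul_le_mul_of_nonneg_left hlX hc.le
    · linarith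
  have hI8 : 8 * (1 / (8 * (I : ℝ))) = 1 / (I : ℝ) := by field_simp
  have hI1 : 1 / (I : ℝ) + 1 / (I : ℝ) = 2 / (I : ℝ) := by ring
  have hI3 : 0 < 1 / (I : ℝ) := by positivity
  have hIll : 1 / Real.log (Real.log N) ≤ 1 / (I : ℝ) :=
    div_le_div_of_nonneg_left zero_le_one hI0 hIl
  have hIle : 2 / (I : ℝ) ≤ 1 := by
    rw [div_le_one hI0]
    exact hI2'
  have hmain := h_MAIN {q // q ∈ P} {a // a ∈ S} (fun q => (q : ℕ)) (fun a => (a : ℕ)) N W w
    (zN N) (XN N) y _ _ _ (2 / (I : ℝ)) (c * Real.log N / (640 * Real.log (Real.log N))) hGood hy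
    hN2' (by rw [hcard]; exact hm1) hX1 hXr (by rw [hcard]; exact hA1)
    (by rw [hI8]; linarith) (by rw [hI8]; linarith) hIle hs0 hSS' (by rw [hcard]; exact hA2)
  have hG0 : ∀ n ∈ GG (fun q : {q // q ∈ P} => (q : ℕ)) (fun a : {a // a ∈ S} => (a : ℕ)) N W w,
      1 ≤ n ∧ n ≤ N := by
    intro n hn
    unfold GG Ar at hn
    rw [mem_filter, mem_filter, mem_Icc] at hn
    exact hn.1.1
  have hexc := h_EXC A (GG (fun q : {q // q ∈ P} => (q : ℕ)) (fun a : {a // a ∈ S} => (a : ℕ))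
    N W w) (XN N) (by
      intro n hn a ha
      have hn1 := hn
      unfold GG Ar at hn1
      rw [mem_filter, mem_filter] at hn1
      by_cases haS : a ∈ S
      · obtain ⟨⟨q, hq⟩, hq2⟩ := hn1.2 ⟨a, haS⟩
        have h3 := (hPmem q).1 hq
        exact ⟨q, h3.1, h3.2.2.1, hq2⟩
      · obtain ⟨q, hq1, hq2, hq3⟩ := hSq a ha haS n hn1.1.2
        exact ⟨q, hq1, le_trans hq2 (le_trans hyz hzX), hq3⟩)
  have hmis := FIN_.mis_ge A₀ N ((GG (fun q : {q // q ∈ P} => (q : ℕ))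
    (fun a : {a // a ∈ S} => (a : ℕ)) N W w).filter fun n => ∀ a ∈ A, ∀ r : ℕ, r.Prime →
      n ≠ r + a) (fun n hn => hG0 n (mem_filter.1 hn).1) (by
      intro n hn a ha r hr
      exact (mem_filter.1 hn).2 a (by rw [hAdef]; exact ha) r hr)
  have has2 := hN4 N hN4' S.card hmS2
  rw [hcard] at hmain
  have hNW : (N : ℝ) / (4 ^ yN N : ℕ) / 16 ≤ (N : ℝ) / W / 16 := by
    apply div_le_div_of_nonneg_right _ (by norm_num)
    apply div_le_div_of_nonneg_left (Nat.cast_nonneg _) (by exact_mod_cast hW1)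
    exact_mod_cast hW4
  by_contra hcon
  push Not at hcon
  have hGGr : ((GG (fun q : {q // q ∈ P} => (q : ℕ)) (fun a : {a // a ∈ S} => (a : ℕ)) N W w).card
      : ℝ) + 4 ≤ (C * (Real.log N * Real.log (Real.log N)) + 1) * ((XN N : ℝ) + 1) +
        ((N : ℝ) ^ ((1 : ℝ) / 2) + 5) := by
    have h1 : ((GG (fun q : {q // q ∈ P} => (q : ℕ)) (fun a : {a // a ∈ S} => (a : ℕ)) N W w).card
      : ℝ) ≤ (ACP.mis A₀ N : ℝ) + (A.card : ℝ) * ((XN N : ℝ) + 1) := by
      have h0 := hexc.trans (Nat.add_le_add_right hmis _)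
      exact_mod_cast h0
    have h2 : (A.card : ℝ) * ((XN N : ℝ) + 1) ≤
        (C * (Real.log N * Real.log (Real.log N)) + 1) * ((XN N : ℝ) + 1) :=
      mul_le_mul_of_nonneg_right hAc (by positivity)
    linarith
  have h9 := mul_le_mul_of_nonneg_right hGGr
    (sq_nonneg ((N : ℝ) ^ ((1 : ℝ) / 8) * 2 ^ S.card))
  linarith

end Pool.Agent.ACR
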