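import Pool.Agent.ACR.Targets

set_option autoImplicit false

/-! ACR, target SZ: the number of survivors. -/

open Finset

namespace Pool.Agent.ACR

open Pool.Agent.ACQ

/-- Target SZ. -/
theorem p_SZ (h_VB : ACQ.T_VB) : T_SZ := by
  intro c₃ hc₃
  obtain ⟨c, Cv, hc, hcC, hV⟩ := h_VB
  have hCv : 0 < Cv := lt_of_lt_of_le hc hcC
  have hCv1 : 0 < 8 * (Cv + 1) := by linarith
  refine ⟨c₃ / (8 * (Cv + 1)), div_pos hc₃ hCv1,
    ⌈Real.exp (max 16 (8 * Cv / c₃))⌉₊, fun N hN => ?_⟩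
  have hN1 : Real.exp (max 16 (8 * Cv / c₃)) ≤ (N : ℝ) :=
    le_trans (Nat.le_ceil _) (by exact_mod_cast hN)
  have hN0 : (0 : ℝ) < N := lt_of_lt_of_le (Real.exp_pos _) hN1
  set L : ℝ := Real.log N with hL
  have hLm : max 16 (8 * Cv / c₃) ≤ L := by
    rw [hL, Real.le_log_iff_exp_le hN0]
    exact hN1
  have hL16 : 16 ≤ L := le_trans (le_max_left _ _) hLm
  have hLc : 8 * Cv / c₃ ≤ L := le_trans (le_max_right _ _) hLm
  have hL0 : 0 < L := by linarith
  have hsq4 : 4 ≤ Real.sqrt L := by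
    apply Real.le_sqrt_of_sq_le
    linarith
  have hlt : Real.sqrt L < (yN N : ℝ) + 1 := by
    have := Nat.lt_floor_add_one (Real.sqrt L)
    simpa [yN, hL] using this
  have hy2 : Real.sqrt L / 2 ≤ (yN N : ℝ) := by linarith
  have hy3 : (2 : ℝ) ≤ (yN N : ℝ) := by linarith
  have hy3' : 2 ≤ yN N := by exact_mod_cast hy3
  have hlog2 : 1 / 4 < Real.log 2 := by
    have := Real.log_two_gt_d9
    linarith
  have hlogL : 4 * Real.log 2 ≤ Real.log L := by
    have h1 : Real.log ((2 : ℝ) ^ 4) = 4 * Real.log 2 := by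
      rw [Real.log_pow]; norm_num
    rw [← h1]
    apply Real.log_le_log (by norm_num)
    norm_num
    exact hL16
  have hlogL1 : 1 ≤ Real.log L := by linarith
  have hlogL0 : 0 < Real.log L := by linarith
  have hlogy : Real.log L / 4 ≤ Real.log (yN N : ℝ) := by
    have h1 : Real.log (Real.sqrt L / 2) ≤ Real.log (yN N : ℝ) :=
      Real.log_le_log (by linarith) hy2
    have hs0 : Real.sqrt L ≠ 0 := by
      have : 0 < Real.sqrt L := by linarith
      exact this.ne'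
    rw [Real.log_div hs0 (by norm_num), Real.log_sqrt hL0.le] at h1
    linarith
  have hlogy0 : 0 < Real.log (yN N : ℝ) := by linarith
  obtain ⟨hVl, hVu⟩ := hV (yN N) hy3'
  have hV0 : 0 ≤ ACP.V (yN N) := le_trans (div_nonneg hc.le hlogy0.le) hVl
  have hVu2 : ACP.V (yN N) ≤ 4 * Cv / Real.log L := by
    refine le_trans hVu ?_
    rw [div_le_div_iff₀ hlogy0 hlogL0]
    nlinarith
  have hA : 0 ≤ c₃ / (8 * (Cv + 1)) * (L * Real.log L) + 1 := by
    have : 0 ≤ c₃ / (8 * (Cv + 1)) * (L * Real.log L) :=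
      mul_nonneg (div_pos hc₃ hCv1).le (mul_nonneg hL0.le hlogL0.le)
    linarith
  have h1 : c₃ / (8 * (Cv + 1)) * (4 * Cv) ≤ c₃ / 2 := by
    rw [div_mul_eq_mul_div, div_le_div_iff₀ hCv1 (by norm_num)]
    nlinarith
  have h2 : 4 * Cv / Real.log L ≤ c₃ / 2 * L := by
    have h3 : 4 * Cv / Real.log L ≤ 4 * Cv := div_le_self (by linarith) hlogL1
    have h4 : 8 * Cv ≤ L * c₃ := (div_le_iff₀ hc₃).1 hLc
    linarith
  calc (c₃ / (8 * (Cv + 1)) * (L * Real.log L) + 1) * ACP.V (yN N)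
      ≤ (c₃ / (8 * (Cv + 1)) * (L * Real.log L) + 1) * (4 * Cv / Real.log L) :=
        mul_le_mul_of_nonneg_left hVu2 hA
    _ = (c₃ / (8 * (Cv + 1)) * (4 * Cv)) * L + 4 * Cv / Real.log L := by
        field_simp
    _ ≤ (c₃ / 2) * L + c₃ / 2 * L :=
        add_le_add (mul_le_mul_of_nonneg_right h1 hL0.le) h2
    _ = c₃ * L := by ring

end Pool.Agent.ACR
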