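import Pool.Agent.ACR.Targets

set_option autoImplicit false

/-!
# ACR: target XCH (chain of scales with growing length)
-/

open Finset

namespace Pool.Agent.ACR

open Pool.Agent.ACQ

namespace XCH_

/-- Half of the logarithm survives the floor. -/
lemma floor_log (y : ℝ) (hy : 4 ≤ y) : Real.log y / 2 ≤ Real.log (⌊y⌋₊ : ℝ) := by
  have h1 : y < (⌊y⌋₊ : ℝ) + 1 := Nat.lt_floor_add_one y
  have h2 : Real.sqrt y ≤ y / 2 := by
    rw [Real.sqrt_le_left (by linarith)]
    nlinarith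
  have h3 : Real.sqrt y ≤ (⌊y⌋₊ : ℝ) := by linarith
  have h4 : 0 < Real.sqrt y := Real.sqrt_pos.2 (by linarith)
  have h5 := Real.log_le_log h4 h3
  rwa [Real.log_sqrt (by linarith)] at h5

/-- A power of a number is smaller than the exponential of a multiple of its square root. -/
lemma ev_pow : ∀ᶠ x : ℝ in Filter.atTop, (16 * x) ^ 20 ≤ Real.exp x := by
  have h := (Real.isLittleO_pow_exp_atTop (n := 20)).bound
    (show (0 : ℝ) < 1 / 16 ^ 20 by positivity)
  filter_upwards [h, Filter.eventually_ge_atTop 0] with x hx h0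
  rw [Real.norm_of_nonneg (by positivity), Real.norm_of_nonneg (Real.exp_pos x).le] at hx
  rw [mul_pow]
  have h1 : (0 : ℝ) < 16 ^ 20 := by positivity
  calc (16 : ℝ) ^ 20 * x ^ 20 ≤ 16 ^ 20 * (1 / 16 ^ 20 * Real.exp x) :=
        mul_le_mul_of_nonneg_left hx h1.le
    _ = Real.exp x := by
        rw [← mul_assoc, mul_one_div_cancel h1.ne', one_mul]

end XCH_

open XCH_ in
theorem p_XCH : T_XCH := by
  intro κ hκ hκ1
  set h : ℝ := κ / 2 with hh
  have hh0 : 0 < h := by rw [hh]; linarith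
  have hh2 : h ≤ 1 / 2 := by rw [hh]; linarith
  have hh1 : h ≤ 1 := by linarith
  set b : ℝ := -Real.log h with hb
  have hlog2 : 1 / 2 < Real.log 2 := by linarith [Real.log_two_gt_d9]
  have hb2 : 1 / 2 < b := by
    have h1 := Real.log_le_log hh0 hh2
    rw [one_div, Real.log_inv] at h1
    rw [hb]
    linarith
  have hb0 : 0 < b := by linarith
  have hexp : Real.exp (-b) = h := by
    rw [hb, neg_neg, Real.exp_log hh0]
  have tL : Filter.Tendsto (fun N : ℕ => Real.log (N : ℝ)) Filter.atTop Filter.atTop :=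
    Real.tendsto_log_atTop.comp tendsto_natCast_atTop_atTop
  have tLL : Filter.Tendsto (fun N : ℕ => Real.log (Real.log (N : ℝ))) Filter.atTop
      Filter.atTop := Real.tendsto_log_atTop.comp tL
  have tS : Filter.Tendsto (fun N : ℕ => Real.sqrt (Real.log (N : ℝ)) / 16) Filter.atTop
      Filter.atTop := (Real.tendsto_sqrt_atTop.comp tL).atTop_div_const (by norm_num)
  have e1 := tS.eventually ev_pow
  have e2 := tS.eventually (Filter.eventually_ge_atTop (Real.log 4))
  have e3 := tLL.eventually (Filter.eventually_ge_atTop (4 * b))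
  have e4 := tL.eventually (Filter.eventually_ge_atTop (1 : ℝ))
  obtain ⟨N₀, hN₀⟩ := Filter.eventually_atTop.1
    ((((e1.and e2).and e3).and e4).and (Filter.eventually_ge_atTop 1))
  refine ⟨1 / (4 * b), by positivity, N₀, fun N hN => ?_⟩
  obtain ⟨⟨⟨⟨h1, h2⟩, h3⟩, h4⟩, h5⟩ := hN₀ N hN
  have hN1 : (1 : ℝ) ≤ N := by exact_mod_cast h5
  have hN0 : (0 : ℝ) < N := by linarith
  set L : ℝ := Real.log (N : ℝ) with hL
  have hL0 : 0 < L := by linarith
  set M : ℝ := Real.log L with hM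
  have hM0 : 0 < M := by nlinarith
  have hML : Real.exp M = L := Real.exp_log hL0
  have hsq : Real.sqrt L = Real.exp (M / 2) := by
    rw [Real.sqrt_eq_iff_mul_self_eq hL0.le (Real.exp_pos _).le, ← Real.exp_add, ← hML]
    congr 1
    ring
  have hpow : L ^ 10 ≤ Real.exp (Real.sqrt L / 16) := by
    have h6 : (16 * (Real.sqrt L / 16)) ^ 20 = L ^ 10 := by
      have h7 : 16 * (Real.sqrt L / 16) = Real.sqrt L := by ring
      rw [h7]
      calc Real.sqrt L ^ 20 = (Real.sqrt L ^ 2) ^ 10 := by ring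
        _ = L ^ 10 := by rw [Real.sq_sqrt hL0.le]
    rw [← h6]
    exact h1
  have hfour : (4 : ℝ) ≤ Real.exp (Real.sqrt L / 16) := by
    have h6 := Real.exp_le_exp.2 h2
    rwa [Real.exp_log (by norm_num)] at h6
  set I : ℕ := ⌊M / (2 * b)⌋₊ with hI
  have hIle : (I : ℝ) ≤ M / (2 * b) := Nat.floor_le (by positivity)
  have hIlt : M / (2 * b) < (I : ℝ) + 1 := Nat.lt_floor_add_one _
  have hbI : b * I ≤ M / 2 := by
    rw [le_div_iff₀ (by positivity)] at hIle
    linarith
  have hM4 : M / (4 * b) ≤ M / (2 * b) - 1 := by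
    have h6 : M / (2 * b) - 1 - M / (4 * b) = (M - 4 * b) / (4 * b) := by
      field_simp
      ring
    have h7 : 0 ≤ (M - 4 * b) / (4 * b) := div_nonneg (by linarith) (by positivity)
    linarith
  have hI1 : 1 ≤ I := by
    rw [hI]
    apply Nat.le_floor
    rw [Nat.cast_one, le_div_iff₀ (by positivity)]
    linarith
  -- the exponents
  have hlow : ∀ k : ℕ, k ≤ I → Real.sqrt L / 16 ≤ h ^ k * (1 / 16) * L := by
    intro k hk
    have h6 : h ^ I ≤ h ^ k := pow_le_pow_of_le_one hh0.le hh1 hk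
    have h7 : Real.exp (-(M / 2)) ≤ h ^ I := by
      rw [← hexp, ← Real.exp_nat_mul]
      apply Real.exp_le_exp.2
      linarith
    have h8 : Real.exp (-(M / 2)) * L = Real.sqrt L := by
      rw [hsq, ← hML, ← Real.exp_add]
      congr 1
      ring
    have h9 : Real.sqrt L ≤ h ^ k * L := by
      rw [← h8]
      exact mul_le_mul_of_nonneg_right (h7.trans h6) hL0.le
    linarith
  have hrp : ∀ y : ℝ, (N : ℝ) ^ y = Real.exp (y * L) := by
    intro y
    rw [Real.rpow_def_of_pos hN0, mul_comm]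
  have hbig : ∀ k : ℕ, k ≤ I →
      Real.exp (Real.sqrt L / 16) ≤ (N : ℝ) ^ (h ^ k * (1 / 16)) := by
    intro k hk
    rw [hrp]
    exact Real.exp_le_exp.2 (hlow k hk)
  have hup : ∀ k : ℕ, h ^ k * (1 / 16) ≤ (1 : ℝ) / 16 := fun k => by
    have := pow_le_one₀ hh0.le hh1 (n := k)
    linarith
  refine ⟨I, hI1, ?_, ?_, fun k => ⌊(N : ℝ) ^ (h ^ k * (1 / 16))⌋₊, ?_, ?_, ?_⟩
  · calc 1 / (4 * b) * M = M / (4 * b) := by ring
      _ ≤ M / (2 * b) - 1 := hM4
      _ ≤ I := by linarith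
  · refine hIle.trans ?_
    rw [div_le_iff₀ (by positivity)]
    nlinarith
  · simp only [XN, pow_zero, one_mul]
  · intro k hk
    constructor
    · unfold zN
      apply Nat.floor_le_floor
      exact hpow.trans (hbig k hk)
    · unfold XN
      exact Nat.floor_le_floor (Real.rpow_le_rpow_of_exponent_le hN1 (hup k))
  · intro k hk
    have h6 := floor_log _ (hfour.trans (hbig k hk.le))
    have h7 : (0 : ℝ) ≤ (N : ℝ) ^ (h ^ (k + 1) * (1 / 16)) := by positivity
    have h8 : 0 < ⌊(N : ℝ) ^ (h ^ (k + 1) * (1 / 16))⌋₊ :=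
      Nat.floor_pos.2 (by linarith [hfour.trans (hbig (k + 1) hk)])
    have h9 : Real.log (⌊(N : ℝ) ^ (h ^ (k + 1) * (1 / 16))⌋₊ : ℝ) ≤
        Real.log ((N : ℝ) ^ (h ^ (k + 1) * (1 / 16))) :=
      Real.log_le_log (by exact_mod_cast h8) (Nat.floor_le h7)
    rw [Real.log_rpow hN0] at h6 h9
    show Real.log (⌊(N : ℝ) ^ (h ^ (k + 1) * (1 / 16))⌋₊ : ℝ) ≤
      κ * Real.log (⌊(N : ℝ) ^ (h ^ k * (1 / 16))⌋₊ : ℝ)
    calc _ ≤ h ^ (k + 1) * (1 / 16) * Real.log N := h9
      _ = κ * (h ^ k * (1 / 16) * Real.log N / 2) := by rw [pow_succ, hh]; ring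
      _ ≤ _ := mul_le_mul_of_nonneg_left h6 hκ.le

end Pool.Agent.ACR
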