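import Pool.Agent.ACQ.All
import Pool.Agent.ACR.P_XCH
import Pool.Agent.ACR.P_WTS
import Pool.Agent.ACR.P_SZ
import Pool.Agent.ACR.P_AS1
import Pool.Agent.ACR.P_AS2
import Pool.Agent.ACR.P_EXC
import Pool.Agent.ACR.P_FIN

set_option autoImplicit false

/-!
# ACR: assembly
-/

namespace Pool.Agent.ACR

theorem all_WTS : T_WTS :=
  p_WTS ACQ.all_VB ACQ.p_SUP ACQ.all_SLO ACQ.all_DIS (ACQ.p_YW0 ACQ.p_MK) (ACQ.p_YW2 ACQ.p_MK)
    (ACQ.p_YW3 ACQ.p_MK) (ACQ.p_YW4 ACQ.p_MK ACQ.p_INC) p_XCH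

theorem fin : T_FIN :=
  p_FIN ACQ.all_MAIN all_WTS ACQ.p_GRE ACQ.p_BAD (p_SZ ACQ.all_VB) p_AS1 p_AS2 p_EXC ACQ.p_SMALL

/-- Additive complements of the primes: lower bound for the counting function. -/
theorem both : ∃ c : ℝ, 0 < c ∧
    (∃ N₀ : ℕ, ∀ N : ℕ, N₀ ≤ N → ∀ A : Set ℕ,
      (ACP.cnt A N : ℝ) ≤ c * (Real.log N * Real.log (Real.log N)) →
        (N : ℝ) ^ ((1 : ℝ) / 2) ≤ ACP.mis A N) ∧
    (∀ A : Set ℕ, ACP.AddCompl A →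
      ∀ᶠ N : ℕ in Filter.atTop, c * (Real.log N * Real.log (Real.log N)) < ACP.cnt A N) := by
  obtain ⟨c, hc, N₀, hN⟩ := fin
  refine ⟨c, hc, ⟨N₀, hN⟩, ?_⟩
  intro A hA
  obtain ⟨n₀, hn₀⟩ := hA
  have h1 : Filter.Tendsto (fun N : ℕ => (N : ℝ) ^ ((1 : ℝ) / 2)) Filter.atTop Filter.atTop :=
    (tendsto_rpow_atTop (by norm_num)).comp tendsto_natCast_atTop_atTop
  filter_upwards [Filter.eventually_ge_atTop N₀, h1.eventually_gt_atTop (n₀ : ℝ)] with N hN1 hN2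
  by_contra hcon
  push Not at hcon
  have h2 := hN N hN1 A hcon
  have h3 : ACP.mis A N ≤ n₀ := by
    unfold ACP.mis
    have h4 : {n : ℕ | 1 ≤ n ∧ n ≤ N ∧ ∀ p a : ℕ, p.Prime → a ∈ A → n ≠ p + a} ⊆
        (Finset.range n₀ : Set ℕ) := by
      rintro n ⟨-, -, h5⟩
      rw [Finset.coe_range, Set.mem_Iio]
      by_contra h6
      push Not at h6
      obtain ⟨p, a, hp, ha, h7⟩ := hn₀ n h6
      exact h5 p a hp ha h7
    calc _ ≤ (Finset.range n₀ : Set ℕ).ncard := Set.ncard_le_ncard h4 (Finset.finite_toSet _)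
      _ = n₀ := by rw [Set.ncard_coe_finset, Finset.card_range]
  have h8 : ((ACP.mis A N : ℕ) : ℝ) ≤ n₀ := by exact_mod_cast h3
  linarith

end Pool.Agent.ACR
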