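import Pool.Agent.ACQ.Targets

set_option autoImplicit false

/-!
# ACR: quantitative form of ACQ (MP_512c7d_nt): the number of scales grows like `log log N`.
Result: a set `A` with at most `c log N log log N` elements in `[1, N]` misses at least `N^(1/2)`
integers of `[1, N]`. Definitions: ACP/Defs.lean (`cnt`, `mis`), ACQ/Defs.lean.
-/

open Finset

namespace Pool.Agent.ACR

open Pool.Agent.ACQ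

/-- XCH. PROOF. `K = ⌈2/κ⌉ + 1 ≥ 3`, `I = ⌊log log N/(2 log K)⌋` (so `I ≤ log log N`, and
`I ≥ log log N/(4 log K)`, `I ≥ 1` for large `N`; `a = 1/(4 log K)`), `x k = ⌊N^((1/16) K^(-k))⌋`.
For `k ≤ I`: `K^k ≤ (log N)^(1/2)`, so `N^((1/16) K^(-k)) ≥ exp ((1/16) (log N)^(1/2)) ≥
(log N)^10 + 1 ≥ 2` for large `N`; floor at least half, so
`log (x k) ≥ (1/16) K^(-k) log N - log 2 ≥ (1/2) (1/16) K^(-k) log N`, while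
`log (x (k+1)) ≤ (1/16) K^(-k-1) log N ≤ κ (1/2)(1/16) K^(-k) log N`.
Adapt Pool/Agent/ACQ/P_XCH.lean. -/
def T_XCH : Prop := ∀ κ : ℝ, 0 < κ → κ ≤ 1 → ∃ a : ℝ, 0 < a ∧ ∃ N₀ : ℕ, ∀ N : ℕ, N₀ ≤ N →
  ∃ I : ℕ, 1 ≤ I ∧ a * Real.log (Real.log N) ≤ I ∧ (I : ℝ) ≤ Real.log (Real.log N) ∧
  ∃ x : ℕ → ℕ, x 0 = XN N ∧ (∀ k, k ≤ I → zN N ≤ x k ∧ x k ≤ XN N) ∧
    ∀ k, k < I → Real.log (x (k + 1)) ≤ κ * Real.log (x k)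

/-- WTS. PROOF (uses ACR.T_XCH and T_VB, T_SUP, T_SLO, T_DIS, T_YW0, T_YW2, T_YW3, T_YW4 of ACQ).
Same proof as Pool/Agent/ACQ/P_WTS.lean, with `I` from ACR.T_XCH. -/
def T_WTS : Prop := ∃ c C a : ℝ, 0 < c ∧ c ≤ C ∧ 0 < a ∧ ∃ N₀ : ℕ, ∀ N : ℕ, N₀ ≤ N →
  ∃ I : ℕ, 1 ≤ I ∧ a * Real.log (Real.log N) ≤ I ∧ (I : ℝ) ≤ Real.log (Real.log N) ∧
  ∀ (ι : Type) [Fintype ι] [DecidableEq ι] (p : ι → ℕ) (B : Finset ℕ),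
  Rng p (zN N) (XN N) B → 2 * B.card ≤ zN N →
  (∃ y : Finset ι → ℝ, Wt p N y (1 / (8 * (I : ℝ)))
    (2 * Real.log (zN N) / (c * I * Real.log N)) (2 * C / (c * zN N))) ∧
  ∀ E : Finset ι, 2 * E.card ≤ zN N →
    c * Real.log (XN N) / (2 * Real.log (zN N)) ≤ SS p (XN N) E

/-- SZ. PROOF (uses ACQ.T_VB). `V y ≤ Cv/log y`, `log (yN N) ≥ (1/4) log log N` for large `N` (see
Pool/Agent/ACQ/P_SZ.lean), so the left side is at most `(c L log L + 1) 4 Cv/log L ≤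
4 Cv c L + 4 Cv/log L`: take `c = c₃/(8 (Cv + 1))`. -/
def T_SZ : Prop := ∀ c₃ : ℝ, 0 < c₃ → ∃ c : ℝ, 0 < c ∧ ∃ N₀ : ℕ, ∀ N : ℕ, N₀ ≤ N →
  (c * (Real.log N * Real.log (Real.log N)) + 1) * ACP.V (yN N) ≤ c₃ * Real.log N

/-- AS1. PROOF. As Pool/Agent/ACQ/P_AS1.lean (the last two lines: `m ≤ L`, `L = log N`, so
`10 (m + 2) L`, `2 m^2 L ≤ L^10/2`), and `2 L (2C/(c z)) ≤ 8 C/(c L^9) ≤ 1/log L`, and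
`log log N` eventually exceeds every constant `b`. -/
def T_AS1 : Prop := ∀ (c C b : ℝ), 0 < c → c ≤ C →
  ∃ N₀ : ℕ, ∀ N : ℕ, N₀ ≤ N → 2 ≤ N ∧ 1 < Real.log (Real.log N) ∧
    b ≤ Real.log (Real.log N) ∧ 2 ≤ zN N ∧ yN N ≤ zN N ∧
    zN N ≤ XN N ∧ 1 ≤ XN N ∧ XN N ≤ N ∧ (XN N : ℝ) ≤ (N : ℝ) ^ ((1 : ℝ) / 16) ∧
    Real.log (zN N) ≤ 10 * Real.log (Real.log N) ∧ 0 < Real.log (zN N) ∧
    Real.log N / 32 ≤ Real.log (XN N) ∧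
    2 * Real.log N * (2 * C / (c * zN N)) ≤ 1 / Real.log (Real.log N) ∧
    4 * Real.log N + 2 ≤ (zN N : ℝ) ∧
    ∀ m : ℝ, 0 ≤ m → m ≤ Real.log N →
      10 * (m + 2) * Real.log N ≤ zN N ∧ 2 * (m ^ 2 * Real.log N) ≤ zN N

/-- AS2. PROOF. Elementary asymptotics, `L = log N`: `4^y ≤ exp (2 √L) ≤ N^(1/100)`,
`2^m ≤ exp (L/100) = N^(1/100)`, `(c L log L + 1)(X + 1) + 5 ≤ N^(1/2)`, `4 m ≤ N^(1/100)` for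
large `N`; the right side is at least `N^(99/100)/16`, the left side at most
`2 N^(1/2 + 1/4 + 2/100) + N^(3/8 + 3/100)`. Compare Pool/Agent/ACQ/P_AS2.lean. -/
def T_AS2 : Prop := ∀ c : ℝ, ∃ N₀ : ℕ, ∀ N : ℕ, N₀ ≤ N → ∀ m : ℕ,
  (m : ℝ) ≤ Real.log N / 100 →
  ((c * (Real.log N * Real.log (Real.log N)) + 1) * ((XN N : ℝ) + 1) +
      ((N : ℝ) ^ ((1 : ℝ) / 2) + 5)) * ((N : ℝ) ^ ((1 : ℝ) / 8) * 2 ^ m) ^ 2 +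
    4 * (m : ℝ) * ((N : ℝ) ^ ((3 : ℝ) / 16) * 2 ^ m) ^ 2 < (N : ℝ) / (4 ^ yN N : ℕ) / 16

/-- EXC. PROOF. The elements `n = r + a` (`r` prime, `a ∈ A`) of `G` have `r = q ≤ X` for the prime
`q ≤ X` with `n ≡ a [MOD q]` (`q ∣ r`), so there are at most `|A| (X + 1)` of them (see
Pool/Agent/ACQ/P_EXC.lean). -/
def T_EXC : Prop := ∀ (A G : Finset ℕ) (X : ℕ),
  (∀ n ∈ G, ∀ a ∈ A, ∃ q : ℕ, q.Prime ∧ q ≤ X ∧ n ≡ a [MOD q]) →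
  (open Classical in
    G.card ≤ (G.filter fun n => ∀ a ∈ A, ∀ r : ℕ, r.Prime → n ≠ r + a).card +
      A.card * (X + 1))

/-- FIN. PROOF (uses ACR.T_WTS, ACR.T_SZ, ACR.T_AS1, ACR.T_AS2, ACR.T_EXC and T_MAIN, T_GRE, T_BAD,
T_SMALL of ACQ). As Pool/Agent/ACQ/P_FIN.lean. `c', C', a` from WTS;
`c₃ = min (1/100) (c' a/640)`, `c` from SZ; `A' = A ∩ [0, N]`, `|A'| ≤ cnt A N + 1`; `m = |S| ≤
c₃ L`; `e3 ≤ 20 log L/(c' I L) ≤ 20/(c' a L)`, so `m e3 ≤ 20 c₃/(c' a) ≤ 1/32`; `δ = 2/I`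
(`2 L e4 ≤ 1/log L ≤ 1/I`; `δ ≤ 1` because `I ≥ a log log N ≥ 2`); `20 m δ^2 ≤ 80 c₃ L/I^2 ≤
80 c₃ L/(a^2 (log L)^2) ≤ c' L/(640 log L) = s0` as soon as `51200 c₃ ≤ c' a^2 log L` (use `b` in
AS1). MAIN with `R = X` and AS2 give `#GG > |A'| (X + 1) + N^(1/2)`, EXC gives the claim
(`GG ⊆ [1, N]`; `n ≤ N`, `n = r + a`, `a ∈ A` implies `a ∈ A'`). -/
def T_FIN : Prop := ∃ c : ℝ, 0 < c ∧ ∃ N₀ : ℕ, ∀ N : ℕ, N₀ ≤ N → ∀ A : Set ℕ,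
  (ACP.cnt A N : ℝ) ≤ c * (Real.log N * Real.log (Real.log N)) →
  (N : ℝ) ^ ((1 : ℝ) / 2) ≤ ACP.mis A N

end Pool.Agent.ACR
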